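import Pool.Agent.W601.RP.Stm2

/-! Project RP: the elements of `H` tend to zero along infinite chains. -/

set_option autoImplicit false
open scoped Classical
open Filter Topology

namespace Pool.Agent.W45.RP

open Pool.Agent.W601.RP

noncomputable section

theorem nullC_zero : NullC 0 := by
  intro A _ η hη
  refine Set.Finite.subset Set.finite_empty ?_
  rintro t ⟨-, ht⟩
  rw [Pi.zero_apply, norm_zero] at ht
  exact absurd ht (not_le.mpr hη)

theorem nullC_add {f g : ℕ → TT} (hf : NullC f) (hg : NullC g) : NullC (f + g) := by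
  intro A hA η hη
  refine Set.Finite.subset ((hf A hA (η / 2) (by linarith)).union
    (hg A hA (η / 2) (by linarith))) ?_
  rintro t ⟨htA, ht⟩
  by_cases h : η / 2 ≤ ‖f t‖
  · exact Or.inl ⟨htA, h⟩
  · refine Or.inr ⟨htA, ?_⟩
    have h1 := norm_add_le (f t) (g t)
    rw [Pi.add_apply] at ht
    linarith

theorem nullC_neg {f : ℕ → TT} (hf : NullC f) : NullC (-f) := by
  intro A hA η hη
  refine Set.Finite.subset (hf A hA η hη) ?_
  rintro t ⟨htA, ht⟩
  rw [Pi.neg_apply, norm_neg] at ht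
  exact ⟨htA, ht⟩

theorem norm_coe_le (r : ℝ) (hr : 0 ≤ r) : ‖(r : TT)‖ ≤ r := by
  rw [UnitAddCircle.norm_eq]
  have h := round_le r 0
  rwa [Int.cast_zero, sub_zero, abs_of_nonneg hr] at h

theorem pre_take (q : ℕ → ℕ) {n n' : ℕ} (h : n ≤ n') : (pre q n').take n = pre q n := by
  unfold pre
  rw [← List.map_take, List.take_range, min_eq_left h]

theorem nullC_x (hN : S_NODE) (q : ℕ → ℕ) (hq : q ∈ QQ) : NullC (x q) := by
  intro A hA η hη
  obtain ⟨-, -, h3, h4, -⟩ := hN
  set B : Set ℕ := {t | t ∈ A ∧ IsNode t ∧ pre q (nL (lt t)) = sL (lt t) ∧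
    η ≤ ‖(((1 / (2 * ((lt t).1 : ℝ))) : ℝ) : TT)‖} with hB
  have hsub : {t | t ∈ A ∧ η ≤ ‖x q t‖} ⊆ {t | t ∈ A ∧ η ≤ ‖gam q t‖} ∪ B := by
    rintro t ⟨htA, ht⟩
    unfold x at ht
    split_ifs at ht with h1 h2
    · exact Or.inr ⟨htA, h1.1, h2, ht⟩
    · rw [norm_zero] at ht
      exact absurd ht (not_le.mpr hη)
    · exact Or.inl ⟨htA, ht⟩
  have hlt : ∀ t ∈ B, ∀ u ∈ B, Lt t u → (lt t).1 < (lt u).1 := by
    intro t ht u hu htu
    obtain ⟨-, -, -, hn, hc⟩ := h4 t u htu
    apply hc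
    rw [← hu.2.2.1, pre_take q hn.le, ht.2.2.1]
  have hfin : B.Finite := by
    refine Set.Finite.of_injOn (f := fun t => (lt t).1) (t := Set.Iic ⌈1 / (2 * η)⌉₊) ?_ ?_
      (Set.finite_Iic _)
    · intro t ht
      rw [Set.mem_Iic]
      have hc1 : 1 ≤ (lt t).1 := (h3 t ht.2.1).2.2.2.2.1
      have hc2 : (1 : ℝ) ≤ ((lt t).1 : ℝ) := by exact_mod_cast hc1
      have h5 : η ≤ 1 / (2 * ((lt t).1 : ℝ)) :=
        ht.2.2.2.trans (norm_coe_le _ (by positivity))
      have h6 : ((lt t).1 : ℝ) ≤ 1 / (2 * η) := by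
        rw [le_div_iff₀ (by positivity)] at h5 ⊢
        linarith
      exact_mod_cast h6.trans (Nat.le_ceil _)
    · intro t ht u hu htu
      by_contra hne
      have htu' : (lt t).1 = (lt u).1 := htu
      rcases hA t ht.1 u hu.1 hne with h | h
      · exact absurd htu' (hlt t ht u hu h).ne
      · exact absurd htu' (hlt u hu t ht h).ne'
  exact ((hq.2 A hA η hη).union hfin).subset hsub

theorem null : S_NODE → S_XV → S_NULL := by
  intro hN hX
  constructor
  · intro h hh
    unfold H at hh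
    induction hh using AddSubgroup.closure_induction with
    | mem f hf =>
      obtain ⟨q, hq, rfl⟩ := hf
      exact nullC_x hN q hq
    | zero => exact nullC_zero
    | add f g _ _ hf hg => exact nullC_add hf hg
    | neg f _ hf => exact nullC_neg hf
  · intro h hh t
    unfold H at hh
    induction hh using AddSubgroup.closure_induction with
    | mem f hf =>
      obtain ⟨q, -, rfl⟩ := hf
      exact hX q t
    | zero => rw [Pi.zero_apply, smul_zero]
    | add f g _ _ hf hg => rw [Pi.add_apply, smul_add, hf, hg, add_zero]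
    | neg f _ hf => rw [Pi.neg_apply, smul_neg, hf, neg_zero]

end

end Pool.Agent.W45.RP
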